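import Mathlib

namespace Pool.Agent.Results.MP_8fed12_co.CoreStrict

open Finset

/-- The set `D_τ(S)`: all points that lie in the convex hulls of all `τ` parts of some partition
of `S` into `τ` pairwise disjoint parts. -/
def tverbergPoints {d : ℕ} (τ : ℕ) (S : Finset (EuclideanSpace ℝ (Fin d))) :
    Set (EuclideanSpace ℝ (Fin d)) :=
  {p | ∃ P : Fin τ → Finset (EuclideanSpace ℝ (Fin d)),
      (∀ i j, i ≠ j → Disjoint (P i) (P j)) ∧ (∀ x, x ∈ S ↔ ∃ i, x ∈ P i) ∧
      ∀ i, p ∈ convexHull ℝ (P i : Set (EuclideanSpace ℝ (Fin d)))}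

/-- The `σ`-core of `S`: the intersection of all `conv (S \ T)` with `T ⊆ S`, `|T| ≤ σ`. -/
def core {d : ℕ} (σ : ℕ) (S : Finset (EuclideanSpace ℝ (Fin d))) :
    Set (EuclideanSpace ℝ (Fin d)) :=
  {p | ∀ T ⊆ S, T.card ≤ σ →
      p ∈ convexHull ℝ ((S : Set (EuclideanSpace ℝ (Fin d))) \ (T : Set _))}

lemma core_convex {d : ℕ} (σ : ℕ) (S : Finset (EuclideanSpace ℝ (Fin d))) :
    Convex ℝ (core σ S) := by
  intro x hx y hy a b ha hb hab T hT hc
  exact (convex_convexHull ℝ _) (hx T hT hc) (hy T hT hc) ha hb hab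

lemma sub_core {d : ℕ} (τ : ℕ) (hτ : 1 ≤ τ) (S : Finset (EuclideanSpace ℝ (Fin d))) :
    tverbergPoints τ S ⊆ core (τ - 1) S := by
  classical
  rintro p ⟨P, hdis, hcov, hp⟩ T hT hc
  by_cases h : ∃ i, Disjoint (P i) T
  · obtain ⟨i, hi⟩ := h
    refine convexHull_mono ?_ (hp i)
    intro x hx
    refine ⟨?_, ?_⟩
    · exact mem_coe.2 ((hcov x).2 ⟨i, mem_coe.1 hx⟩)
    · intro hxT
      exact (Finset.disjoint_left.1 hi) (mem_coe.1 hx) (mem_coe.1 hxT)
  · exfalso
    push Not at h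
    have hch : ∀ i, ∃ x, x ∈ P i ∧ x ∈ T := by
      intro i
      have := h i
      rw [Finset.not_disjoint_iff] at this
      exact this
    choose g hg1 hg2 using hch
    have hinj : Function.Injective g := by
      intro i j hij
      by_contra hne
      exact (Finset.disjoint_left.1 (hdis i j hne)) (hg1 i) (hij ▸ hg1 j)
    have h2 : (Finset.univ.image g).card ≤ T.card := by
      apply Finset.card_le_card
      intro x hx
      obtain ⟨i, -, rfl⟩ := Finset.mem_image.1 hx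
      exact hg2 i
    rw [Finset.card_image_of_injective _ hinj, Finset.card_univ, Fintype.card_fin] at h2
    omega

/-- the nine points, integer coordinates -/
def pt : Fin 9 → Fin 3 → ℤ :=
  ![![0, 0, -1], ![0, -1, 0], ![-1, 0, -1], ![0, 1, 1], ![-1, -1, -2], ![-1, -1, -1],
    ![-1, 2, 0], ![1, 0, 1], ![1, -1, 0]]

/-- the nine points in Euclidean space -/
noncomputable def pE (k : Fin 9) : EuclideanSpace ℝ (Fin 3) :=
  WithLp.toLp 2 (fun i => ((pt k i : ℤ) : ℝ))

lemma pE_apply (k : Fin 9) (i : Fin 3) : pE k i = ((pt k i : ℤ) : ℝ) := rfl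

lemma pt_inj : Function.Injective pt := by decide +kernel

lemma pE_inj : Function.Injective pE := by
  intro a b hab
  apply pt_inj
  funext i
  have h : pE a i = pE b i := by rw [hab]
  have h' : ((pt a i : ℤ) : ℝ) = ((pt b i : ℤ) : ℝ) := h
  exact Int.cast_injective h'

/-- the example -/
noncomputable def S9 : Finset (EuclideanSpace ℝ (Fin 3)) := Finset.univ.map ⟨pE, pE_inj⟩

lemma mem_S9 (x : EuclideanSpace ℝ (Fin 3)) : x ∈ S9 ↔ ∃ k, pE k = x := by
  simp [S9]

/-- minimal sets of indices whose points have the origin in their hull, with weights -/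
def W : List (Fin 9 → ℕ) :=
  [![0,0,1,0,0,0,0,1,0], ![1,1,0,1,0,0,0,0,0], ![0,1,0,0,0,0,1,0,1], ![0,0,1,1,0,0,0,0,1],
   ![0,0,0,1,1,0,0,1,0], ![0,0,0,2,1,0,0,0,1], ![1,2,0,0,0,0,1,1,0], ![1,0,0,1,0,1,0,1,0],
   ![1,0,0,2,0,1,0,0,1], ![1,0,0,0,0,2,1,3,0], ![0,1,0,0,1,0,1,2,0], ![0,0,0,1,0,1,1,0,2],
   ![0,0,0,0,1,1,1,3,0], ![0,0,0,0,0,1,1,1,1]]

/-- functionals -/
def M : List (Fin 3 → ℤ) :=
  [![-7, -4, 6], ![-3, -2, 1], ![-3, -2, 6], ![-2, 2, 1], ![0, 1, 1], ![2, -2, 1], ![2, 3, -4],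
   ![3, 1, 1], ![4, 1, -2], ![5, 2, -6]]

lemma W_zero : ∀ w ∈ W, (∀ i, ∑ k, (w k : ℤ) * pt k i = 0) ∧ 0 < ∑ k, w k := by
  decide +kernel

lemma W_avoid : ∀ i j : Fin 9, ∃ w ∈ W, w i = 0 ∧ w j = 0 := by
  decide +kernel

lemma W_disj : ∀ w₁ ∈ W, ∀ w₂ ∈ W, ∀ w₃ ∈ W,
    ∃ k, (w₁ k ≠ 0 ∧ w₂ k ≠ 0) ∨ (w₁ k ≠ 0 ∧ w₃ k ≠ 0) ∨ (w₂ k ≠ 0 ∧ w₃ k ≠ 0) := by
  decide +kernel

lemma dichotomy : ∀ b : Fin 9 → Bool, (∃ w ∈ W, ∀ k, w k ≠ 0 → b k = true) ∨
    (∃ m ∈ M, ∀ k, b k = true → ∑ i, m i * pt k i < 0) := by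
  decide +kernel

lemma zero_mem {w : Fin 9 → ℕ} (hw : w ∈ W) (A : Set (EuclideanSpace ℝ (Fin 3)))
    (hA : ∀ k, w k ≠ 0 → pE k ∈ A) : (0 : EuclideanSpace ℝ (Fin 3)) ∈ convexHull ℝ A := by
  classical
  obtain ⟨h0, hpos⟩ := W_zero w hw
  have hsum : (0 : ℝ) < ∑ k ∈ Finset.univ.filter (fun k => w k ≠ 0), ((w k : ℕ) : ℝ) := by
    rw [Finset.sum_filter_of_ne (by intro k _ hk; exact_mod_cast hk)]
    exact_mod_cast hpos
  have hc := Finset.centerMass_mem_convexHull (R := ℝ)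
    (Finset.univ.filter (fun k => w k ≠ 0)) (w := fun k => ((w k : ℕ) : ℝ)) (z := pE) (s := A)
    (by intro k _; positivity) hsum (by
      intro k hk
      exact hA k (Finset.mem_filter.1 hk).2)
  have hz : Finset.centerMass (Finset.univ.filter (fun k => w k ≠ 0))
      (fun k => ((w k : ℕ) : ℝ)) pE = 0 := by
    unfold Finset.centerMass
    have : ∑ k ∈ Finset.univ.filter (fun k => w k ≠ 0), ((w k : ℕ) : ℝ) • pE k = 0 := by
      rw [Finset.sum_filter_of_ne (by
        intro k _ hk hw0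
        apply hk
        rw [hw0]; simp)]
      ext i
      have h1 := h0 i
      have h2 : (∑ k, ((w k : ℕ) : ℝ) * ((pt k i : ℤ) : ℝ)) = 0 := by exact_mod_cast h1
      simpa [pE_apply] using h2
    rw [this, smul_zero]
  rw [hz] at hc
  exact hc

/-- linear functional with integer coefficients -/
lemma half_convex (m : Fin 3 → ℝ) :
    Convex ℝ {p : EuclideanSpace ℝ (Fin 3) | ∑ i, m i * p i < 0} := by
  intro x hx y hy a b ha hb hab
  simp only [Set.mem_ofPred_eq] at hx hy ⊢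
  have : ∑ i, m i * (a • x + b • y) i = a * ∑ i, m i * x i + b * ∑ i, m i * y i := by
    simp only [PiLp.add_apply, PiLp.smul_apply, smul_eq_mul, Finset.mul_sum]
    rw [← Finset.sum_add_distrib]
    apply Finset.sum_congr rfl
    intro i _
    ring
  rw [this]
  rcases ha.eq_or_lt with h | h
  · rw [← h] at hab ⊢
    have hb1 : b = 1 := by linarith
    rw [hb1]; linarith
  · have h1 : a * ∑ i, m i * x i < 0 := mul_neg_of_pos_of_neg h hx
    have h2 : b * ∑ i, m i * y i ≤ 0 := mul_nonpos_of_nonneg_of_nonpos hb hy.le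
    linarith

lemma half_convex_le (m : Fin 3 → ℝ) :
    Convex ℝ {p : EuclideanSpace ℝ (Fin 3) | ∑ i, m i * p i ≤ 0} := by
  intro x hx y hy a b ha hb hab
  simp only [Set.mem_ofPred_eq] at hx hy ⊢
  have : ∑ i, m i * (a • x + b • y) i = a * ∑ i, m i * x i + b * ∑ i, m i * y i := by
    simp only [PiLp.add_apply, PiLp.smul_apply, smul_eq_mul, Finset.mul_sum]
    rw [← Finset.sum_add_distrib]
    apply Finset.sum_congr rfl
    intro i _
    ring
  rw [this]
  have h1 : a * ∑ i, m i * x i ≤ 0 := mul_nonpos_of_nonneg_of_nonpos ha hx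
  have h2 : b * ∑ i, m i * y i ≤ 0 := mul_nonpos_of_nonneg_of_nonpos hb hy
  linarith

lemma zero_mem_core : (0 : EuclideanSpace ℝ (Fin 3)) ∈ core 2 S9 := by
  classical
  intro T hT hc
  have hij : ∃ i j : Fin 9, ∀ k, pE k ∈ T → k = i ∨ k = j := by
    set I : Finset (Fin 9) := Finset.univ.filter (fun k => pE k ∈ T) with hI
    have hIc : I.card ≤ 2 := by
      refine le_trans ?_ hc
      have : (I.image pE).card ≤ T.card := by
        apply Finset.card_le_card
        intro x hx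
        obtain ⟨k, hk, rfl⟩ := Finset.mem_image.1 hx
        exact (Finset.mem_filter.1 hk).2
      rwa [Finset.card_image_of_injective _ pE_inj] at this
    have h3 : I.card = 0 ∨ I.card = 1 ∨ I.card = 2 := by omega
    rcases h3 with h | h | h
    · refine ⟨0, 0, fun k hk => ?_⟩
      have : k ∈ I := Finset.mem_filter.2 ⟨Finset.mem_univ _, hk⟩
      rw [Finset.card_eq_zero.1 h] at this
      simp at this
    · obtain ⟨a, ha⟩ := Finset.card_eq_one.1 h
      refine ⟨a, a, fun k hk => ?_⟩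
      have : k ∈ I := Finset.mem_filter.2 ⟨Finset.mem_univ _, hk⟩
      rw [ha] at this
      simp at this
      exact Or.inl this
    · obtain ⟨a, b, -, hab⟩ := Finset.card_eq_two.1 h
      refine ⟨a, b, fun k hk => ?_⟩
      have : k ∈ I := Finset.mem_filter.2 ⟨Finset.mem_univ _, hk⟩
      rw [hab] at this
      simpa using this
  obtain ⟨i, j, hij⟩ := hij
  obtain ⟨w, hw, hwi, hwj⟩ := W_avoid i j
  refine zero_mem hw _ ?_
  intro k hk
  refine ⟨mem_coe.2 ((mem_S9 _).2 ⟨k, rfl⟩), ?_⟩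
  intro hkT
  rcases hij k (mem_coe.1 hkT) with h | h
  · exact hk (h ▸ hwi)
  · exact hk (h ▸ hwj)

lemma zero_notMem : (0 : EuclideanSpace ℝ (Fin 3)) ∉ tverbergPoints 3 S9 := by
  classical
  rintro ⟨P, hdis, hcov, hp⟩
  have key : ∀ i, ∃ w ∈ W, ∀ k, w k ≠ 0 → pE k ∈ P i := by
    intro i
    rcases dichotomy (fun k => decide (pE k ∈ P i)) with ⟨w, hw, h⟩ | ⟨m, hm, h⟩
    · exact ⟨w, hw, fun k hk => by simpa using h k hk⟩
    · exfalso
      have hsub : (P i : Set (EuclideanSpace ℝ (Fin 3))) ⊆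
          {p : EuclideanSpace ℝ (Fin 3) | ∑ t, ((m t : ℤ) : ℝ) * p t < 0} := by
        intro x hx
        obtain ⟨k, rfl⟩ := (mem_S9 x).1 ((hcov x).2 ⟨i, mem_coe.1 hx⟩)
        have h1 := h k (by simpa using hx)
        simp only [Set.mem_ofPred_eq, pE_apply]
        exact_mod_cast h1
      have h2 := convexHull_min hsub (half_convex _) (hp i)
      simp at h2
  obtain ⟨w₁, hw₁, h₁⟩ := key 0
  obtain ⟨w₂, hw₂, h₂⟩ := key 1
  obtain ⟨w₃, hw₃, h₃⟩ := key 2
  obtain ⟨k, hk⟩ := W_disj w₁ hw₁ w₂ hw₂ w₃ hw₃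
  rcases hk with ⟨ha, hb⟩ | ⟨ha, hb⟩ | ⟨ha, hb⟩
  · exact (Finset.disjoint_left.1 (hdis 0 1 (by decide))) (h₁ k ha) (h₂ k hb)
  · exact (Finset.disjoint_left.1 (hdis 0 2 (by decide))) (h₁ k ha) (h₃ k hb)
  · exact (Finset.disjoint_left.1 (hdis 1 2 (by decide))) (h₂ k ha) (h₃ k hb)

/-- a pair of points whose removal leaves only nonpositive values of a functional -/
lemma core_half (m : Fin 3 → ℤ) (a b : Fin 9)
    (h : ∀ k, k ≠ a → k ≠ b → ∑ i, m i * pt k i ≤ 0) {p : EuclideanSpace ℝ (Fin 3)}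
    (hp : p ∈ core 2 S9) : ∑ i, ((m i : ℤ) : ℝ) * p i ≤ 0 := by
  classical
  have hT : ({pE a, pE b} : Finset (EuclideanSpace ℝ (Fin 3))) ⊆ S9 := by
    intro x hx
    simp only [Finset.mem_insert, Finset.mem_singleton] at hx
    rcases hx with rfl | rfl
    · exact (mem_S9 _).2 ⟨a, rfl⟩
    · exact (mem_S9 _).2 ⟨b, rfl⟩
  have h1 := hp _ hT Finset.card_le_two
  have hsub : ((S9 : Set (EuclideanSpace ℝ (Fin 3))) \
      (({pE a, pE b} : Finset (EuclideanSpace ℝ (Fin 3))) : Set _)) ⊆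
      {p : EuclideanSpace ℝ (Fin 3) | ∑ t, ((m t : ℤ) : ℝ) * p t ≤ 0} := by
    rintro x ⟨hx, hx2⟩
    obtain ⟨k, rfl⟩ := (mem_S9 x).1 (mem_coe.1 hx)
    have hka : k ≠ a := by
      rintro rfl
      apply hx2
      simp
    have hkb : k ≠ b := by
      rintro rfl
      apply hx2
      simp
    have h2 := h k hka hkb
    simp only [Set.mem_ofPred_eq, pE_apply]
    exact_mod_cast h2
  exact convexHull_min hsub (half_convex_le _) h1

lemma zero_notMem_hull :
    (0 : EuclideanSpace ℝ (Fin 3)) ∉ convexHull ℝ (tverbergPoints 3 S9) := by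
  intro h0
  have hsub : tverbergPoints 3 S9 ⊆
      {p : EuclideanSpace ℝ (Fin 3) | ∑ i, (1 : ℝ) * p i < 0} := by
    intro p hp
    have hc : p ∈ core 2 S9 := sub_core 3 (by norm_num) S9 hp
    have hx := core_half ![1, 0, 0] 7 8 (by decide +kernel) hc
    have hy := core_half ![0, 1, 0] 3 6 (by decide +kernel) hc
    have hz := core_half ![0, 0, 1] 3 7 (by decide +kernel) hc
    simp [Fin.sum_univ_three] at hx hy hz
    simp only [Set.mem_ofPred_eq, one_mul, Fin.sum_univ_three]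
    rcases lt_or_eq_of_le (by linarith : p 0 + p 1 + p 2 ≤ 0) with h | h
    · exact h
    · exfalso
      have h0' : p 0 = 0 := by linarith
      have h1' : p 1 = 0 := by linarith
      have h2' : p 2 = 0 := by linarith
      have hp0 : p = 0 := by
        ext i
        fin_cases i
        · simpa using h0'
        · simpa using h1'
        · simpa using h2'
      rw [hp0] at hp
      exact zero_notMem hp
  have h2 := convexHull_min hsub (half_convex _) h0
  simp at h2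

lemma card_S9 : S9.card = 9 := by
  simp [S9]

/-- For `d = 3` and `τ = 3` there is a set of `(τ-1)(d+1)+1 = 9` points of `ℝ³` for which the
convex hull of the Tverberg points is a proper subset of the core. -/
theorem result : ∃ S : Finset (EuclideanSpace ℝ (Fin 3)),
    S.card = (3 - 1) * (3 + 1) + 1 ∧
      convexHull ℝ (tverbergPoints 3 S) ⊂ core (3 - 1) S := by
  refine ⟨S9, by rw [card_S9], ?_⟩
  refine ⟨convexHull_min (sub_core 3 (by norm_num) S9) (core_convex _ _), ?_⟩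
  intro h
  exact zero_notMem_hull (h zero_mem_core)

end Pool.Agent.Results.MP_8fed12_co.CoreStrict
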